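import Mathlib

set_option autoImplicit false

namespace Pool.Agent.Lib.MP_08e409_gt

open Cardinal Set

/-- Distinct representatives: if every `C j` has at least `#J` elements, one can choose
pairwise distinct elements `g j ∈ C j`. -/
theorem exists_inj {J α : Type} (C : J → Set α) (h : ∀ j, #J ≤ #(C j)) :
    ∃ g : J → α, Function.Injective g ∧ ∀ j, g j ∈ C j := by
  classical
  obtain ⟨lo, wf, hord⟩ := Cardinal.exists_ord_eq_type_lt J
  have step : ∀ (j : J) (F : Iio j → α), ∃ a, a ∈ C j ∧ ∀ k, F k ≠ a := by
    intro j F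
    by_contra hcon
    push Not at hcon
    have h1 : #(C j) ≤ #(Iio j) := by
      have hsub : C j ⊆ range F := fun a ha => by
        obtain ⟨k, hk⟩ := hcon a ha
        exact ⟨k, hk⟩
      exact (mk_le_mk_of_subset hsub).trans mk_range_le
    have h2 := mk_Iio_lt j hord
    exact absurd (h j) (not_le.mpr (h1.trans_lt h2))
  let G : ∀ j : J, (∀ k : J, k < j → α) → α :=
    fun j ih => Classical.choose (step j (fun k => ih k.1 k.2))
  let g : J → α := (wellFounded_lt (α := J)).fix G
  have hg : ∀ j, g j = Classical.choose (step j (fun k => g k.1)) := by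
    intro j
    exact (wellFounded_lt (α := J)).fix_eq G j
  have hmem : ∀ j, g j ∈ C j := by
    intro j
    rw [hg j]
    exact (Classical.choose_spec (step j (fun k => g k.1))).1
  have hne : ∀ j k, k < j → g k ≠ g j := by
    intro j k hkj
    rw [hg j]
    exact (Classical.choose_spec (step j (fun k => g k.1))).2 ⟨k, hkj⟩
  refine ⟨g, ?_, hmem⟩
  intro j k hjk
  rcases lt_trichotomy j k with h1 | h1 | h1
  · exact absurd hjk (hne k j h1)
  · exact h1
  · exact absurd hjk.symm (hne j k h1)

/-- There are at most continuum many closed subsets of a second countable space. -/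
theorem mk_closed_le {M : Type} [TopologicalSpace M] [SecondCountableTopology M] :
    #{C : Set M // IsClosed C} ≤ 𝔠 := by
  classical
  let b := TopologicalSpace.countableBasis M
  have hb : b.Countable := TopologicalSpace.countable_countableBasis M
  have hbas := TopologicalSpace.isBasis_countableBasis M
  let F : {C : Set M // IsClosed C} → Set b := fun C => {s | (s : Set M) ⊆ (C : Set M)ᶜ}
  have hF : Function.Injective F := by
    intro C D hCD
    have key : ∀ C : {C : Set M // IsClosed C}, (C : Set M)ᶜ = ⋃ s ∈ F C, (s : Set M) := by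
      intro C
      apply Set.Subset.antisymm
      · intro x hx
        obtain ⟨v, hv, hxv, hvC⟩ := hbas.exists_subset_of_mem_open hx C.2.isOpen_compl
        exact Set.mem_biUnion (x := (⟨v, hv⟩ : b)) hvC hxv
      · intro x hx
        simp only [Set.mem_iUnion] at hx
        obtain ⟨s, hs, hxs⟩ := hx
        exact hs hxs
    have h2 : (C : Set M)ᶜ = (D : Set M)ᶜ := by rw [key C, key D, hCD]
    exact Subtype.ext (compl_injective h2)
  have hcb : Countable b := hb.to_subtype
  calc #{C : Set M // IsClosed C} ≤ #(Set b) := mk_le_of_injective hF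
    _ = 2 ^ #b := mk_set
    _ ≤ 2 ^ ℵ₀ := by
        apply Cardinal.power_le_power_left two_ne_zero
        exact Cardinal.mk_le_aleph0
    _ = 𝔠 := Cardinal.two_power_aleph0

/-- A Bernstein-type set in the Cantor space. -/
theorem exists_bernstein : ∃ B : Set (ℕ → Bool),
    (∀ C, IsClosed C → ¬ C.Countable → (B ∩ C).Nonempty) ∧ ¬ Bᶜ.Countable := by
  classical
  have : PolishSpace (ℕ → Bool) := {}
  let ι := {C : Set (ℕ → Bool) // IsClosed C ∧ ¬ C.Countable}
  have hM : #(ℕ → Bool) = 𝔠 := by simp
  have hι : #ι ≤ #(ℕ → Bool) := by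
    rw [hM]
    have : #ι ≤ #{C : Set (ℕ → Bool) // IsClosed C} :=
      mk_le_of_injective (f := fun C : ι => (⟨C.1, C.2.1⟩ : {C : Set (ℕ → Bool) // IsClosed C}))
        (by
          intro C D h
          simp only [Subtype.mk.injEq] at h
          exact Subtype.ext h)
    exact this.trans mk_closed_le
  have hun : ¬ (univ : Set (ℕ → Bool)).Countable := by
    rw [Set.countable_univ_iff, not_countable_iff, ← Cardinal.aleph0_lt_mk_iff, hM]
    exact aleph0_lt_continuum
  have hne : Nonempty ι := ⟨⟨univ, isClosed_univ, hun⟩⟩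
  obtain ⟨e⟩ := (Cardinal.le_def _ _).mp hι
  let s : (ℕ → Bool) → ι := Function.invFun e
  have hs : Function.Surjective s := Function.invFun_surjective e.injective
  have hJ : #((ℕ → Bool) × Bool) ≤ 𝔠 := by
    simp
  have hC : ∀ C : ι, 𝔠 ≤ #(C.1) := by
    intro C
    obtain ⟨f, hf, _, hfi⟩ := IsClosed.exists_nat_bool_injection_of_not_countable C.2.1 C.2.2
    rw [← hM]
    exact mk_le_of_injective (f := fun x => (⟨f x, hf ⟨x, rfl⟩⟩ : C.1))
      (fun x y h => hfi (by simpa using h))
  obtain ⟨g, hg, hgC⟩ := exists_inj (fun j : (ℕ → Bool) × Bool => (s j.1).1)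
    (fun j => hJ.trans (hC (s j.1)))
  refine ⟨(range (fun m => g (m, false)))ᶜ, ?_, ?_⟩
  · intro C hCc hCu
    obtain ⟨m, hm⟩ := hs ⟨C, hCc, hCu⟩
    refine ⟨g (m, true), ?_, ?_⟩
    · rintro ⟨k, hk⟩
      have := hg hk
      simp at this
    · have := hgC (m, true)
      simp only [hm] at this
      exact this
  · rw [compl_compl]
    intro hcount
    apply hun
    have hinj : Function.Injective (fun m => g (m, false)) := by
      intro a b hab
      have := hg hab
      simpa using this
    have := hcount.preimage hinj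
    rwa [Set.preimage_range] at this

end Pool.Agent.Lib.MP_08e409_gt
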