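import Mathlib

/-!
# MP_08e409_gt: the space, general form of the key step
-/

set_option autoImplicit false

namespace Pool.Agent.Lib.PCType

open Set Filter Topology

noncomputable section

/-- The split line: two copies of every real; `(r, false)` is the left copy of `r`,
`(r, true)` is its right copy. -/
structure Cut : Type where
  val : ℝ × Bool

/-- `code p q = true` says that `p` lies strictly to the right of the left copy of `q`. -/
def code (p : Cut) (q : ℝ) : Bool :=
  if p.val.2 = true then decide (q ≤ p.val.1) else decide (q < p.val.1)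

instance : TopologicalSpace Cut := TopologicalSpace.induced code inferInstance

lemma code_inducing : IsInducing code := ⟨rfl⟩

lemma code_true (r q : ℝ) : code ⟨(r, true)⟩ q = true ↔ q ≤ r := by
  simp [code]

lemma code_false (r q : ℝ) : code ⟨(r, false)⟩ q = true ↔ q < r := by
  simp [code]

lemma code_mono (p : Cut) {u v : ℝ} (h : u ≤ v) (hv : code p v = true) : code p u = true := by
  obtain ⟨r, b⟩ := p
  cases b
  · rw [code_false] at *
    exact lt_of_le_of_lt h hv
  · rw [code_true] at *
    exact h.trans hv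

lemma code_anti (p : Cut) {u v : ℝ} (h : u ≤ v) (hu : code p u = false) : code p v = false := by
  by_contra hv
  rw [Bool.not_eq_false] at hv
  rw [code_mono p h hv] at hu
  exact Bool.noConfusion hu

lemma code_injective : Function.Injective code := by
  rintro ⟨r, b⟩ ⟨s, c⟩ h
  have key : ∀ (r s : ℝ) (b c : Bool), code ⟨(r, b)⟩ = code ⟨(s, c)⟩ → r ≤ s := by
    intro r s b c H
    by_contra hlt
    rw [not_le] at hlt
    obtain ⟨q, hq1, hq2⟩ := exists_between hlt
    have h1 : code ⟨(r, b)⟩ q = true := by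
      cases b
      · rw [code_false]; exact hq2
      · rw [code_true]; exact hq2.le
    have h2 : code ⟨(s, c)⟩ q = true := by rw [← H]; exact h1
    cases c
    · rw [code_false] at h2; linarith
    · rw [code_true] at h2; linarith
  have hrs : r = s := le_antisymm (key r s b c h) (key s r c b h.symm)
  subst hrs
  have h3 : code ⟨(r, b)⟩ r = true ↔ code ⟨(r, c)⟩ r = true := by rw [h]
  cases b <;> cases c
  · rfl
  · rw [code_false, code_true] at h3
    exact absurd (h3.2 le_rfl) (lt_irrefl _)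
  · rw [code_false, code_true] at h3
    exact absurd (h3.1 le_rfl) (lt_irrefl _)
  · rfl

lemma code_embedding : IsEmbedding code := ⟨code_inducing, code_injective⟩

instance : T2Space Cut := code_embedding.t2Space

instance : RegularSpace Cut := code_inducing.regularSpace

lemma continuous_code (q : ℝ) : Continuous fun p : Cut => code p q :=
  (continuous_apply q).comp code_inducing.continuous

lemma isOpen_code (q : ℝ) (b : Bool) : IsOpen {p : Cut | code p q = b} :=
  (isOpen_discrete {b}).preimage (continuous_code q)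

lemma isClosed_code (q : ℝ) (b : Bool) : IsClosed {p : Cut | code p q = b} :=
  (isClosed_discrete {b}).preimage (continuous_code q)

lemma nhds_cut (p : Cut) : 𝓝 p = ⨅ q : ℝ, 𝓟 {p' : Cut | code p' q = code p q} := by
  rw [code_inducing.nhds_eq_comap, nhds_pi, Filter.pi, comap_iInf]
  refine iInf_congr fun q => ?_
  rw [nhds_discrete, comap_comap, ← principal_singleton, comap_principal]
  rfl

/-- basic neighbourhoods of a right copy -/
lemma nhds_plus (t : ℝ) :
    𝓝 (⟨(t, true)⟩ : Cut) = ⨅ n : ℕ, 𝓟 {p : Cut | code p t = true ∧ code p (t + 1 / (n + 1)) = false} := by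
  apply le_antisymm
  · refine le_iInf fun n => ?_
    rw [le_principal_iff]
    have h1 := (isOpen_code t true).mem_nhds (x := (⟨(t, true)⟩ : Cut)) (by
      show code _ t = true
      rw [code_true])
    have h2 := (isOpen_code (t + 1 / (n + 1)) false).mem_nhds (x := (⟨(t, true)⟩ : Cut)) (by
      show code _ _ = false
      rw [← Bool.not_eq_true, code_true, not_le]
      have : (0 : ℝ) < 1 / (n + 1) := Nat.one_div_pos_of_nat
      linarith)
    exact inter_mem h1 h2
  · rw [nhds_cut]
    refine le_iInf fun q => ?_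
    rcases le_or_gt q t with hq | hq
    · refine (iInf_le _ 0).trans (principal_mono.2 ?_)
      rintro p ⟨hp, -⟩
      show code p q = code _ q
      rw [code_mono p hq hp, (code_true t q).2 hq]
    · obtain ⟨n, hn⟩ := exists_nat_one_div_lt (sub_pos.2 hq)
      refine (iInf_le _ n).trans (principal_mono.2 ?_)
      rintro p ⟨-, hp⟩
      show code p q = code _ q
      have h1 : code (⟨(t, true)⟩ : Cut) q = false := by
        rw [← Bool.not_eq_true, code_true, not_le]; exact hq
      rw [h1, code_anti p (by linarith) hp]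

/-- basic neighbourhoods of a left copy -/
lemma nhds_minus (t : ℝ) :
    𝓝 (⟨(t, false)⟩ : Cut) = ⨅ n : ℕ, 𝓟 {p : Cut | code p (t - 1 / (n + 1)) = true ∧ code p t = false} := by
  apply le_antisymm
  · refine le_iInf fun n => ?_
    rw [le_principal_iff]
    have h1 := (isOpen_code t false).mem_nhds (x := (⟨(t, false)⟩ : Cut)) (by
      show code _ t = false
      rw [← Bool.not_eq_true, code_false]; exact lt_irrefl _)
    have h2 := (isOpen_code (t - 1 / (n + 1)) true).mem_nhds (x := (⟨(t, false)⟩ : Cut)) (by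
      show code _ _ = true
      rw [code_false]
      have : (0 : ℝ) < 1 / (n + 1) := Nat.one_div_pos_of_nat
      linarith)
    exact inter_mem h2 h1
  · rw [nhds_cut]
    refine le_iInf fun q => ?_
    rcases lt_or_ge q t with hq | hq
    · obtain ⟨n, hn⟩ := exists_nat_one_div_lt (sub_pos.2 hq)
      refine (iInf_le _ n).trans (principal_mono.2 ?_)
      rintro p ⟨hp, -⟩
      show code p q = code _ q
      rw [(code_false t q).2 hq, code_mono p (by linarith) hp]
    · refine (iInf_le _ 0).trans (principal_mono.2 ?_)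
      rintro p ⟨-, hp⟩
      show code p q = code _ q
      have h1 : code (⟨(t, false)⟩ : Cut) q = false := by
        rw [← Bool.not_eq_true, code_false, not_lt]; exact hq
      rw [h1, code_anti p hq hp]

instance : FirstCountableTopology Cut := by
  refine ⟨?_⟩
  rintro ⟨t, b⟩
  cases b
  · rw [nhds_minus]; infer_instance
  · rw [nhds_plus]; infer_instance

lemma mem_nhds_plus {t : ℝ} {S : Set Cut} (hS : S ∈ 𝓝 (⟨(t, true)⟩ : Cut)) :
    ∃ q, t < q ∧ {p : Cut | code p t = true ∧ code p q = false} ⊆ S := by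
  rw [nhds_plus] at hS
  have hdir : Directed (· ≥ ·) fun n : ℕ =>
      𝓟 {p : Cut | code p t = true ∧ code p (t + 1 / ((n : ℝ) + 1)) = false} := by
    refine directed_of_isDirected_le ?_
    intro m n hmn
    refine principal_mono.2 ?_
    rintro p ⟨h1, h2⟩
    refine ⟨h1, code_anti p ?_ h2⟩
    have := Nat.one_div_le_one_div (α := ℝ) hmn
    linarith
  rw [mem_iInf_of_directed hdir] at hS
  obtain ⟨n, hn⟩ := hS
  refine ⟨t + 1 / (n + 1), ?_, hn⟩
  have : (0 : ℝ) < 1 / (n + 1) := Nat.one_div_pos_of_nat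
  linarith

lemma mem_nhds_minus {t : ℝ} {S : Set Cut} (hS : S ∈ 𝓝 (⟨(t, false)⟩ : Cut)) :
    ∃ q, q < t ∧ {p : Cut | code p q = true ∧ code p t = false} ⊆ S := by
  rw [nhds_minus] at hS
  have hdir : Directed (· ≥ ·) fun n : ℕ =>
      𝓟 {p : Cut | code p (t - 1 / ((n : ℝ) + 1)) = true ∧ code p t = false} := by
    refine directed_of_isDirected_le ?_
    intro m n hmn
    refine principal_mono.2 ?_
    rintro p ⟨h1, h2⟩
    refine ⟨code_mono p ?_ h1, h2⟩
    have := Nat.one_div_le_one_div (α := ℝ) hmn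
    linarith
  rw [mem_iInf_of_directed hdir] at hS
  obtain ⟨n, hn⟩ := hS
  refine ⟨t - 1 / (n + 1), ?_, hn⟩
  have : (0 : ℝ) < 1 / (n + 1) := Nat.one_div_pos_of_nat
  linarith

/-- The space: pairs of a cut and a 0-1 function on the line which, when the cut is the right copy
of `r`, vanishes at `r`. -/
structure X : Type where
  pt : Cut
  fn : ℝ → Bool
  adm : pt.val.2 = true → fn pt.val.1 = false

/-- the ambient coordinates -/
def emb (z : X) : Cut × (ℝ → Bool) := (z.pt, z.fn)

instance : TopologicalSpace X := TopologicalSpace.induced emb inferInstance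

lemma emb_inducing : IsInducing emb := ⟨rfl⟩

lemma emb_injective : Function.Injective emb := by
  rintro ⟨p, x, h⟩ ⟨q, y, h'⟩ hpq
  simp only [emb, Prod.mk.injEq] at hpq
  obtain ⟨rfl, rfl⟩ := hpq
  rfl

lemma emb_embedding : IsEmbedding emb := ⟨emb_inducing, emb_injective⟩

instance : T2Space X := emb_embedding.t2Space

instance : RegularSpace X := emb_inducing.regularSpace

lemma continuous_pt : Continuous X.pt := continuous_fst.comp emb_inducing.continuous

lemma continuous_fn : Continuous X.fn := continuous_snd.comp emb_inducing.continuous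

/-- admissible fibre coordinates -/
def F (c : Cut) : Set (ℝ → Bool) := {x | c.val.2 = true → x c.val.1 = false}

lemma isOpen_coord (r : ℝ) : IsOpen {x : ℝ → Bool | x r = false} :=
  (isOpen_discrete ({false} : Set Bool)).preimage (continuous_apply (A := fun _ : ℝ => Bool) r)

lemma isClosed_coord (r : ℝ) : IsClosed {x : ℝ → Bool | x r = false} :=
  (isClosed_discrete ({false} : Set Bool)).preimage (continuous_apply (A := fun _ : ℝ => Bool) r)

lemma isClosed_F (c : Cut) : IsClosed (F c) := by
  by_cases h : c.val.2 = true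
  · have : F c = {x | x c.val.1 = false} := by
      ext x; simp [F, h]
    rw [this]
    exact isClosed_coord _
  · have : F c = univ := by
      ext x; simp [F, h]
    rw [this]; exact isClosed_univ

lemma isOpen_F (c : Cut) : IsOpen (F c) := by
  by_cases h : c.val.2 = true
  · have : F c = {x | x c.val.1 = false} := by
      ext x; simp [F, h]
    rw [this]
    exact isOpen_coord _
  · have : F c = univ := by
      ext x; simp [F, h]
    rw [this]; exact isOpen_univ

/-- the slice over a cut -/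
def slice (c : Cut) : Set X := {z | z.pt = c}

lemma emb_image_slice (c : Cut) : emb '' (slice c) = ({c} : Set Cut) ×ˢ F c := by
  ext ⟨p, x⟩
  constructor
  · rintro ⟨⟨p', x', hz⟩, hz1, hz2⟩
    have hz1' : p' = c := hz1
    simp only [emb, Prod.mk.injEq] at hz2
    obtain ⟨rfl, rfl⟩ := hz2
    subst hz1'
    exact ⟨rfl, hz⟩
  · rintro ⟨hp, hx⟩
    have hp' : p = c := hp
    subst hp'
    exact ⟨⟨p, x, hx⟩, rfl, rfl⟩

lemma isCompact_slice (c : Cut) : IsCompact (slice c) := by
  rw [emb_inducing.isCompact_iff, emb_image_slice]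
  exact isCompact_singleton.prod (isClosed_F c).isCompact

lemma nhdsSet_slice (c : Cut) :
    𝓝ˢ (slice c) = comap emb (𝓝 c ×ˢ 𝓟 (F c)) := by
  rw [emb_inducing.nhdsSet_eq_comap, emb_image_slice,
    isCompact_singleton.nhdsSet_prod_eq (isClosed_F c).isCompact, nhdsSet_singleton,
    (isOpen_F c).nhdsSet_eq]

instance nhdsSet_slice_cg (c : Cut) : (𝓝ˢ (slice c)).IsCountablyGenerated := by
  rw [nhdsSet_slice]
  infer_instance

/-- Every open set containing the slice over a left copy contains all slices slightly to the left. -/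
lemma tube_minus {t : ℝ} {W : Set X} (hW : IsOpen W) (h : slice ⟨(t, false)⟩ ⊆ W) :
    ∃ q, q < t ∧ ∀ z : X, code z.pt q = true → code z.pt t = false → z ∈ W := by
  have h1 : W ∈ 𝓝ˢ (slice (⟨(t, false)⟩ : Cut)) := hW.mem_nhdsSet.2 h
  rw [nhdsSet_slice, mem_comap] at h1
  obtain ⟨V, hV, hVW⟩ := h1
  rw [mem_prod_iff] at hV
  obtain ⟨A, hA, B, hB, hAB⟩ := hV
  obtain ⟨q, hq, hqA⟩ := mem_nhds_minus hA
  refine ⟨q, hq, fun z hz1 hz2 => hVW ?_⟩
  refine hAB ⟨hqA ⟨hz1, hz2⟩, hB ?_⟩
  intro h2
  exact absurd h2 (by simp)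

/-- The space is Lindelöf. -/
lemma lindelof_X : LindelofSpace X := by
  refine ⟨isLindelof_of_countable_subcover ?_⟩
  intro ι U hUo hUc
  -- finite subfamilies covering the slices
  have hfin : ∀ c : Cut, ∃ T : Finset ι, slice c ⊆ ⋃ i ∈ T, U i := fun c =>
    (isCompact_slice c).elim_finite_subcover U hUo ((subset_univ _).trans hUc)
  choose T hT using hfin
  have htube : ∀ r : ℝ, ∃ q, q < r ∧ ∀ z : X, code z.pt q = true → code z.pt r = false →
      z ∈ ⋃ i ∈ T ⟨(r, false)⟩, U i := fun r =>
    tube_minus (isOpen_biUnion fun i _ => hUo i) (hT _)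
  choose a ha haU using htube
  -- the part of the line covered by the open intervals
  obtain ⟨D, hDc, hD⟩ := TopologicalSpace.isOpen_iUnion_countable (fun r : ℝ => Ioo (a r) r)
    (fun r => isOpen_Ioo)
  -- the remaining part is countable
  have hcount : (⋃ r : ℝ, Ioo (a r) r)ᶜ.Countable := by
    have hq : ∀ r : ℝ, ∃ q : ℚ, a r < q ∧ (q : ℝ) < r := fun r => exists_rat_btwn (ha r)
    choose g hg1 hg2 using hq
    refine MapsTo.countable_of_injOn (f := g) (t := univ) (mapsTo_univ _ _) ?_ (Set.to_countable _)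
    intro r hr s hs hrs
    have key : ∀ r s : ℝ, r ∈ (⋃ r : ℝ, Ioo (a r) r)ᶜ → g r = g s → ¬ r < s := by
      intro r s hr hrs hlt
      apply hr
      rw [mem_iUnion]
      refine ⟨s, ?_, hlt⟩
      calc a s < (g s : ℝ) := hg1 s
        _ = (g r : ℝ) := by rw [hrs]
        _ < r := hg2 r
    exact le_antisymm (not_lt.1 (key s r hs hrs.symm)) (not_lt.1 (key r s hr hrs))
  set E : Set ℝ := D ∪ (⋃ r : ℝ, Ioo (a r) r)ᶜ with hE
  have hEc : E.Countable := hDc.union hcount
  refine ⟨⋃ r ∈ E, ((T ⟨(r, false)⟩ : Set ι) ∪ (T ⟨(r, true)⟩ : Set ι)), ?_, ?_⟩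
  · exact hEc.biUnion fun r _ => (Finset.countable_toSet _).union (Finset.countable_toSet _)
  · intro z _
    rcases hz : z.pt with ⟨⟨s, b⟩⟩
    have : ∃ r ∈ E, ∃ c : Bool, z ∈ ⋃ i ∈ T ⟨(r, c)⟩, U i := by
      by_cases hs : s ∈ ⋃ r : ℝ, Ioo (a r) r
      · rw [← hD, mem_iUnion₂] at hs
        obtain ⟨r, hr, hs1, hs2⟩ := hs
        refine ⟨r, Or.inl hr, false, haU r z ?_ ?_⟩
        · rw [hz]
          cases b
          · rw [code_false]; exact hs1
          · rw [code_true]; exact hs1.le
        · rw [hz, ← Bool.not_eq_true]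
          cases b
          · rw [code_false]; exact not_lt.2 hs2.le
          · rw [code_true]; exact not_le.2 hs2
      · exact ⟨s, Or.inr hs, b, hT _ hz⟩
    obtain ⟨r, hr, c, hzc⟩ := this
    rw [mem_iUnion₂] at hzc ⊢
    obtain ⟨i, hi, hzi⟩ := hzc
    refine ⟨i, ?_, hzi⟩
    rw [mem_iUnion₂]
    refine ⟨r, hr, ?_⟩
    cases c
    · exact Or.inl hi
    · exact Or.inr hi

/-- A regular Lindelöf space is paracompact. -/
lemma paracompact_of_lindelof (Z : Type) [TopologicalSpace Z] [LindelofSpace Z] [RegularSpace Z] :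
    ParacompactSpace Z := by
  refine ⟨fun α s hso hsc => ?_⟩
  -- each point has an open neighbourhood whose closure lies in a member of the cover
  have h1 : ∀ x : Z, ∃ V : Set Z, IsOpen V ∧ x ∈ V ∧ ∃ i, closure V ⊆ s i := by
    intro x
    have hx : x ∈ ⋃ a, s a := by rw [hsc]; trivial
    obtain ⟨i, hi⟩ := mem_iUnion.1 hx
    obtain ⟨C, hC, hCc, hCs⟩ := exists_mem_nhds_isClosed_subset ((hso i).mem_nhds hi)
    refine ⟨interior C, isOpen_interior, mem_interior_iff_mem_nhds.2 hC, i, ?_⟩
    exact (closure_minimal interior_subset hCc).trans hCs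
  choose V hVo hxV idx hVs using h1
  obtain ⟨t, htc, ht⟩ := (isLindelof_univ (X := Z)).elim_countable_subcover V hVo
    (fun x _ => mem_iUnion.2 ⟨x, hxV x⟩)
  rcases t.eq_empty_or_nonempty with hte | htne
  · -- the space is empty
    subst hte
    refine ⟨α, s, hso, hsc, ?_, fun a => ⟨a, subset_rfl⟩⟩
    intro x
    have := ht (mem_univ x)
    simp at this
  obtain ⟨e, he⟩ := htc.exists_eq_range htne
  refine ⟨ℕ, fun n => s (idx (e n)) \ ⋃ m ∈ Finset.range n, closure (V (e m)), ?_, ?_, ?_, ?_⟩
  · intro n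
    refine (hso _).sdiff ?_
    exact isClosed_biUnion_finset fun m _ => isClosed_closure
  · rw [eq_univ_iff_forall]
    intro x
    have hex : ∃ n, x ∈ s (idx (e n)) := by
      have hx := ht (mem_univ x)
      rw [mem_iUnion₂] at hx
      obtain ⟨y, hy, hxy⟩ := hx
      rw [he] at hy
      obtain ⟨n, rfl⟩ := hy
      exact ⟨n, hVs _ (subset_closure hxy)⟩
    classical
    rw [mem_iUnion]
    refine ⟨Nat.find hex, Nat.find_spec hex, ?_⟩
    rw [mem_iUnion₂]
    rintro ⟨m, hm, hxm⟩
    rw [Finset.mem_range] at hm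
    exact Nat.find_min hex hm (hVs _ hxm)
  · intro x
    have hx := ht (mem_univ x)
    rw [mem_iUnion₂] at hx
    obtain ⟨y, hy, hxy⟩ := hx
    rw [he] at hy
    obtain ⟨n, rfl⟩ := hy
    refine ⟨V (e n), (hVo _).mem_nhds hxy, ?_⟩
    refine (Set.finite_Iic n).subset ?_
    rintro m ⟨w, hw1, hw2⟩
    rw [mem_Iic]
    by_contra hnm
    rw [not_le] at hnm
    apply hw1.2
    rw [mem_iUnion₂]
    exact ⟨n, Finset.mem_range.2 hnm, subset_closure hw2⟩
  · intro n
    exact ⟨idx (e n), sdiff_subset⟩

/-- The points in the zero section over the right copies. -/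
def zpt (s : ℝ) : X := ⟨⟨(s, true)⟩, fun _ => false, fun _ => rfl⟩

/-- The key step: fibres of a perfect map are thin near the zero section. -/
lemma fibre_thin {Y : Type*} [TopologicalSpace Y] {f : X → Y} (hf : Continuous f)
    (hfc : IsClosedMap f) (hK : ∀ y : Y, IsCompact (f ⁻¹' {y})) (t : ℝ) :
    ∃ q, t < q ∧ ∀ s, t ≤ s → s < q → ∀ z : X, f z = f (zpt s) → z.pt = ⟨(s, true)⟩ →
      z.fn t = false := by
  set K : Set X := f ⁻¹' {f (zpt t)} with hKdef
  set W : Set X := {z | z.fn t = false} with hW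
  have hWo : IsOpen W := (isOpen_coord t).preimage continuous_fn
  have hKW : IsCompact (X.pt '' (K \ W)) := ((hK _).diff hWo).image continuous_pt
  have hnot : (⟨(t, true)⟩ : Cut) ∉ X.pt '' (K \ W) := by
    rintro ⟨z, ⟨-, hz2⟩, hz3⟩
    apply hz2
    have := z.adm
    rw [hz3] at this
    exact this rfl
  have hnhds : (X.pt '' (K \ W))ᶜ ∈ 𝓝 (⟨(t, true)⟩ : Cut) :=
    hKW.isClosed.isOpen_compl.mem_nhds hnot
  obtain ⟨q1, hq1, hq1s⟩ := mem_nhds_plus hnhds
  set G : Set X := W ∪ {z | code z.pt t = true ∧ code z.pt q1 = false}ᶜ with hG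
  have hGo : IsOpen G := by
    have hcl : IsClosed {z : X | code z.pt t = true ∧ code z.pt q1 = false} :=
      ((isClosed_code t true).inter (isClosed_code q1 false)).preimage continuous_pt
    exact hWo.union hcl.isOpen_compl
  have hKG : K ⊆ G := by
    intro z hz
    by_cases hzW : z ∈ W
    · exact Or.inl hzW
    · refine Or.inr fun hz2 => ?_
      exact hq1s hz2 ⟨z, ⟨hz, hzW⟩, rfl⟩
  set N : Set Y := (f '' Gᶜ)ᶜ with hN
  have hNo : IsOpen N := (hfc _ hGo.isClosed_compl).isOpen_compl
  have hNG : f ⁻¹' N ⊆ G := by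
    intro z hz
    by_contra hzG
    exact hz ⟨z, hzG, rfl⟩
  have hpN : f (zpt t) ∈ N := by
    rintro ⟨z, hz1, hz2⟩
    exact hz1 (hKG hz2)
  have hpre : IsOpen (f ⁻¹' N) := hNo.preimage hf
  obtain ⟨V, hV, hVN⟩ := isOpen_induced_iff.1 hpre
  have hVt : (fun c : Cut => (c, fun _ : ℝ => false)) ⁻¹' V ∈ 𝓝 (⟨(t, true)⟩ : Cut) := by
    refine IsOpen.mem_nhds (hV.preimage (by fun_prop)) ?_
    have : zpt t ∈ emb ⁻¹' V := by rw [hVN]; exact hpN
    exact this
  obtain ⟨q2, hq2, hq2s⟩ := mem_nhds_plus hVt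
  refine ⟨min q1 q2, lt_min hq1 hq2, fun s hts hsq z hz hzs => ?_⟩
  have hzsN : zpt s ∈ f ⁻¹' N := by
    rw [← hVN]
    have : (⟨(s, true)⟩ : Cut) ∈ (fun c : Cut => (c, fun _ : ℝ => false)) ⁻¹' V := by
      apply hq2s
      refine ⟨(code_true s t).2 hts, ?_⟩
      rw [← Bool.not_eq_true, code_true, not_le]
      exact hsq.trans_le (min_le_right _ _)
    exact this
  have hzN : z ∈ f ⁻¹' N := by
    show f z ∈ N
    rw [hz]; exact hzsN
  rcases hNG hzN with h | h
  · exact h
  · exfalso
    apply h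
    refine ⟨?_, ?_⟩
    · rw [hzs]; exact (code_true s t).2 hts
    · rw [hzs, ← Bool.not_eq_true, code_true, not_le]
      exact hsq.trans_le (min_le_left _ _)

/-- The spike at `t` over the right copy of `s`. -/
def spike (s t : ℝ) : X := by
  classical
  exact ⟨⟨(s, true)⟩, fun u => decide (u = t ∧ t ≠ s), fun _ => by
    show decide (s = t ∧ t ≠ s) = false
    rw [decide_eq_false_iff_not]
    rintro ⟨h1, h2⟩
    exact h2 h1.symm⟩

lemma tendsto_spike (s : ℝ) : Tendsto (spike s) cofinite (𝓝 (zpt s)) := by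
  rw [emb_inducing.nhds_eq_comap, tendsto_comap_iff]
  have h2 : 𝓝 (emb (zpt s)) = 𝓝 (⟨(s, true)⟩ : Cut) ×ˢ 𝓝 (fun _ : ℝ => false) := by
    rw [← nhds_prod_eq]; rfl
  rw [h2]
  refine Tendsto.prodMk tendsto_const_nhds ?_
  rw [tendsto_pi_nhds]
  intro u
  refine tendsto_nhds_of_eventually_eq ?_
  rw [eventually_cofinite]
  refine (Set.finite_singleton u).subset ?_
  intro t ht
  by_contra hne
  apply ht
  show decide (u = t ∧ t ≠ s) = false
  rw [decide_eq_false_iff_not]
  rintro ⟨h1, -⟩
  exact hne h1.symm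


/-- There is no perfect map from `X` onto a space whose points are `G_δ` sets. -/
lemma no_perfect_map {Y : Type*} [TopologicalSpace Y] (hG : ∀ y : Y, IsGδ ({y} : Set Y))
    {f : X → Y} (hf : Continuous f) (hfc : IsClosedMap f)
    (hK : ∀ y : Y, IsCompact (f ⁻¹' {y})) : False := by
  have h1 := fibre_thin hf hfc hK
  choose q hq1 hq2 using h1
  have h2 : ∀ t : ℝ, ∃ c : ℚ, t < c ∧ (c : ℝ) < q t := fun t => exists_rat_btwn (hq1 t)
  choose g hg1 hg2 using h2
  have h3 : ∃ c : ℚ, ¬ (g ⁻¹' {c}).Countable := by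
    by_contra hcon
    push Not at hcon
    have h4 : (⋃ c : ℚ, g ⁻¹' {c}).Countable := countable_iUnion hcon
    have h5 : (⋃ c : ℚ, g ⁻¹' {c}) = (univ : Set ℝ) := by
      rw [eq_univ_iff_forall]
      intro t
      rw [mem_iUnion]
      exact ⟨g t, rfl⟩
    rw [h5] at h4
    exact Cardinal.not_countable_real h4
  obtain ⟨c, hc⟩ := h3
  have h6 : Tendsto (fun t => f (spike c t)) cofinite (𝓝 (f (zpt c))) :=
    (hf.tendsto _).comp (tendsto_spike c)
  have h7 : {t : ℝ | f (spike c t) ≠ f (zpt c)}.Countable := by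
    obtain ⟨T, hTo, hTc, hT⟩ := hG (f (zpt c))
    have h8 : {t : ℝ | f (spike c t) ≠ f (zpt c)} ⊆ ⋃ U ∈ T, {t | f (spike c t) ∉ U} := by
      intro t ht
      have h9 : f (spike c t) ∉ ⋂₀ T := by
        rw [← hT]
        exact ht
      rw [mem_sInter] at h9
      push Not at h9
      obtain ⟨U, hU, hU2⟩ := h9
      exact mem_biUnion hU hU2
    refine (hTc.biUnion fun U hU => ?_).mono h8
    have h10 : f (zpt c) ∈ U := by
      have h11 : f (zpt c) ∈ ⋂₀ T := by
        rw [← hT]
        exact mem_singleton _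
      exact h11 U hU
    exact (h6.eventually ((hTo U hU).mem_nhds h10)).countable
  have h8 : ∃ t, t ∈ g ⁻¹' {c} ∧ f (spike c t) = f (zpt c) := by
    by_contra hcon
    push Not at hcon
    exact hc (h7.mono fun t ht => hcon t ht)
  obtain ⟨t, ht, hft⟩ := h8
  have htc : g t = c := ht
  have h9 : t < (c : ℝ) := by rw [← htc]; exact hg1 t
  have h10 : (c : ℝ) < q t := by
    have := hg2 t
    rw [htc] at this
    exact this
  have h11 := hq2 t c h9.le h10 (spike c t) hft rfl
  have h12 : decide (t = t ∧ t ≠ (c : ℝ)) = false := h11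
  rw [decide_eq_false_iff_not] at h12
  exact h12 ⟨rfl, h9.ne⟩

end

end Pool.Agent.Lib.PCType
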